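import Mathlib

/-!
A reversible elementary square partitioned cellular automaton in which every pattern is periodic
and the population ratio of periodic patterns is unbounded.
-/

namespace Pool.Agent.Results.MP_b5d889_lc.Unbounded

/-- The state of a cell: the parts are `0` top, `1` right, `2` bottom, `3` left. -/
abbrev State : Type := Fin 4 → Bool

/-- The rotation `(t,r,b,l) ↦ (l,t,r,b)`. -/
def rot (s : State) : State := fun i => s (i - 1)

/-- The local function of an ESPCA: it fixes the empty state and commutes with the rotation. -/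
structure IsESPCA (f : State → State) : Prop where
  zero : f (fun _ => false) = fun _ => false
  comm : ∀ s, f (rot s) = rot (f s)

/-- A configuration gives every cell of `ℤ × ℤ` a state. -/
abbrev Config : Type := ℤ × ℤ → State

/-- The neighbour of a cell above (`0`), to the right (`1`), below (`2`), to the left (`3`). -/
def nbr (z : ℤ × ℤ) (i : Fin 4) : ℤ × ℤ :=
  ![(z.1, z.2 + 1), (z.1 + 1, z.2), (z.1, z.2 - 1), (z.1 - 1, z.2)] i

/-- The global map: the new state of a cell is `f` applied to the bottom part of the upper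
neighbour, the left part of the right neighbour, the top part of the lower neighbour and the right
part of the left neighbour (the part of the neighbour number `i` that faces the cell is the part
number `i + 2`). -/
def step (f : State → State) (c : Config) : Config := fun z => f (fun i => c (nbr z i) (i + 2))

/-- The particles of a configuration: the pairs (cell, part) holding `1`. -/
def particles (c : Config) : Set ((ℤ × ℤ) × Fin 4) := {p | c p.1 p.2 = true}

/-- A pattern: finitely many particles, at least one. -/
def IsPattern (c : Config) : Prop := (particles c).Finite ∧ (particles c).Nonempty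

/-- The population: the number of particles. -/
noncomputable def population (c : Config) : ℕ := (particles c).ncard

/-- The largest population among `c, F c, …, F^(p-1) c`. -/
noncomputable def pMax (f : State → State) (c : Config) (p : ℕ) : ℕ :=
  sSup {n | ∃ i < p, n = population ((step f)^[i] c)}

/-- The smallest population among `c, F c, …, F^(p-1) c`. -/
noncomputable def pMin (f : State → State) (c : Config) (p : ℕ) : ℕ :=
  sInf {n | ∃ i < p, n = population ((step f)^[i] c)}

/-- The rule. -/
def g (s : State) : State :=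
  if s = ![true, true, false, false] then ![true, false, true, true]
  else if s = ![false, true, true, false] then ![true, true, false, true]
  else if s = ![false, false, true, true] then ![true, true, true, false]
  else if s = ![true, false, false, true] then ![false, true, true, true]
  else if s = ![true, true, true, false] then ![true, true, false, false]
  else if s = ![false, true, true, true] then ![false, true, true, false]
  else if s = ![true, false, true, true] then ![false, false, true, true]
  else if s = ![true, true, false, true] then ![true, false, false, true]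
  else s

lemma g_espca : IsESPCA g := ⟨by decide, by decide⟩

lemma g_inj : Function.Injective g := by
  intro a b
  revert a b
  decide

lemma g_bij : Function.Bijective g := Finite.injective_iff_bijective.mp g_inj

/-- The rule fixes the states with at most one particle. -/
lemma g_small : ∀ s : State, (∀ j k, s j = true → s k = true → j = k) → g s = s := by decide

lemma g_front : g ![true, false, false, true] = ![false, true, true, true] := by decide

lemma g_wake : ∀ x y : Bool, g ![false, x, false, y] = ![false, x, false, y] := by decide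

/-! ### Injectivity of the global map -/

lemma nbr_nbr (z : ℤ × ℤ) (i : Fin 4) : nbr (nbr z i) (i + 2) = z := by
  obtain ⟨x, y⟩ := z
  fin_cases i <;> simp [nbr]

lemma add_two_two (i : Fin 4) : i + 2 + 2 = i := by
  revert i
  decide

lemma step_inj : Function.Injective (step g) := by
  intro c c' h
  funext w i
  have h1 := congrFun h (nbr w i)
  have h2 := g_inj h1
  have h3 := congrFun h2 (i + 2)
  simpa [nbr_nbr, add_two_two] using h3

/-! ### Confinement: every configuration is confined to a box -/

/-- The cell `z` lies in the box `[0,m) × [0,m)`. -/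
def InBox (m : ℕ) (z : ℤ × ℤ) : Prop := 0 ≤ z.1 ∧ z.1 < m ∧ 0 ≤ z.2 ∧ z.2 < m

/-- Every particle lies on an edge of the grid touching the box. -/
def Confined (m : ℕ) (c : Config) : Prop :=
  ∀ z i, c z i = true → InBox m z ∨ InBox m (nbr z i)

lemma nbr_unique {m : ℕ} {z : ℤ × ℤ} (hz : ¬ InBox m z) {j k : Fin 4}
    (hj : InBox m (nbr z j)) (hk : InBox m (nbr z k)) : j = k := by
  obtain ⟨x, y⟩ := z
  fin_cases j <;> fin_cases k <;> simp [nbr, InBox] at * <;> omega

lemma confined_step {m : ℕ} {c : Config} (h : Confined m c) : Confined m (step g c) := by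
  intro z i hi
  by_cases hz : InBox m z
  · exact Or.inl hz
  · right
    have h1 : ∀ j : Fin 4, c (nbr z j) (j + 2) = true → InBox m (nbr z j) := by
      intro j hj
      rcases h _ _ hj with h2 | h2
      · exact h2
      · rw [nbr_nbr] at h2
        exact absurd h2 hz
    have h2 : g (fun j => c (nbr z j) (j + 2)) = fun j => c (nbr z j) (j + 2) :=
      g_small _ fun j k hj hk => nbr_unique hz (h1 j hj) (h1 k hk)
    have h3 : step g c z i = c (nbr z i) (i + 2) := by
      simp only [step]
      rw [h2]
    rw [h3] at hi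
    exact h1 i hi

lemma confined_iterate {m : ℕ} {c : Config} (h : Confined m c) (n : ℕ) :
    Confined m ((step g)^[n] c) := by
  induction n with
  | zero => exact h
  | succ n ih =>
    rw [Function.iterate_succ_apply']
    exact confined_step ih

/-- The larger box. -/
noncomputable def bigBox (m : ℕ) : Finset (ℤ × ℤ) := Finset.Icc (-1) (m : ℤ) ×ˢ Finset.Icc (-1) (m : ℤ)

lemma mem_bigBox {m : ℕ} {c : Config} (h : Confined m c) {z : ℤ × ℤ} {i : Fin 4}
    (hi : c z i = true) : z ∈ bigBox m := by
  obtain ⟨x, y⟩ := z
  simp only [bigBox, Finset.mem_product, Finset.mem_Icc]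
  rcases h _ _ hi with h1 | h1
  · simp only [InBox] at h1
    omega
  · fin_cases i <;> simp [nbr, InBox] at h1 <;> omega

lemma particles_finite {m : ℕ} {c : Config} (h : Confined m c) : (particles c).Finite := by
  apply ((bigBox m) ×ˢ (Finset.univ : Finset (Fin 4))).finite_toSet.subset
  rintro ⟨z, i⟩ hi
  simp only [Finset.coe_product, Set.mem_prod, Finset.mem_coe, Finset.mem_univ, and_true]
  exact mem_bigBox h hi

lemma finite_confined (m : ℕ) : Finite {c : Config // Confined m c} := by
  apply Finite.of_injective (fun (c : {c : Config // Confined m c}) (z : bigBox m) => c.1 z.1)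
  rintro ⟨c, hc⟩ ⟨c', hc'⟩ h
  apply Subtype.ext
  funext z i
  by_cases hz : z ∈ bigBox m
  · exact congrFun (congrFun h ⟨z, hz⟩) i
  · have h1 : c z i ≠ true := fun h1 => hz (mem_bigBox hc h1)
    have h2 : c' z i ≠ true := fun h2 => hz (mem_bigBox hc' h2)
    simp only [ne_eq, Bool.not_eq_true] at h1 h2
    change c z i = c' z i
    rw [h1, h2]

/-- Every confined configuration is periodic. -/
lemma exists_period {m : ℕ} {c : Config} (h : Confined m c) :
    ∃ p, 1 ≤ p ∧ (step g)^[p] c = c := by
  have := finite_confined m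
  obtain ⟨a, b, hab, he⟩ := Finite.exists_ne_map_eq_of_infinite
    (fun n : ℕ => (⟨(step g)^[n] c, confined_iterate h n⟩ : {c : Config // Confined m c}))
  have he' : (step g)^[a] c = (step g)^[b] c := congrArg Subtype.val he
  have key : ∀ a b : ℕ, a < b → (step g)^[a] c = (step g)^[b] c →
      ∃ p, 1 ≤ p ∧ (step g)^[p] c = c := by
    intro a b hab he
    refine ⟨b - a, by omega, ?_⟩
    have h1 : (step g)^[a] ((step g)^[b - a] c) = (step g)^[a] c := by
      rw [← Function.iterate_add_apply, he]
      congr 2
      omega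
    exact step_inj.iterate a h1
  rcases lt_or_gt_of_ne hab with h1 | h1
  · exact key a b h1 he'
  · exact key b a h1 he'.symm

/-! ### The staircase -/

/-- The initial configuration: the right and bottom parts of the cells `(i,i)`, `0 ≤ i < m`. -/
def c0 (m : ℕ) : Config := fun z i =>
  decide (z.1 = z.2 ∧ 0 ≤ z.1 ∧ z.1 < m ∧ (i = 1 ∨ i = 2))

/-- The evolution of the infinite staircase on the diagonal number `k`. -/
def U (t : ℕ) (k : ℤ) : State :=
  ![false, decide (0 ≤ k ∧ k ≤ t ∧ (2 : ℤ) ∣ t - k), decide (k = t),
    decide (0 < k ∧ k ≤ t ∧ (2 : ℤ) ∣ t - k)]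

lemma U_step (t : ℕ) (k : ℤ) :
    g ![U t (k - 1) 2, U t (k + 1) 3, U t (k + 1) 0, U t (k - 1) 1] = U (t + 1) k := by
  have e2 : U t (k - 1) 2 = decide (k - 1 = t) := rfl
  have e3 : U t (k + 1) 3 = decide (0 < k + 1 ∧ k + 1 ≤ t ∧ (2 : ℤ) ∣ t - (k + 1)) := rfl
  have e0 : U t (k + 1) 0 = false := rfl
  have e1 : U t (k - 1) 1 = decide (0 ≤ k - 1 ∧ k - 1 ≤ t ∧ (2 : ℤ) ∣ t - (k - 1)) := rfl
  rw [e2, e3, e0, e1]
  by_cases h : k = t + 1
  · subst h
    have h1 : ((t : ℤ) + 1 - 1 = t) := by ring
    have h2 : ¬ (0 < (t : ℤ) + 1 + 1 ∧ (t : ℤ) + 1 + 1 ≤ t ∧ (2 : ℤ) ∣ t - ((t : ℤ) + 1 + 1)) := by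
      omega
    have h3 : (0 ≤ (t : ℤ) + 1 - 1 ∧ (t : ℤ) + 1 - 1 ≤ t ∧ (2 : ℤ) ∣ t - ((t : ℤ) + 1 - 1)) := by
      omega
    rw [decide_eq_true h1, decide_eq_false h2, decide_eq_true h3, g_front]
    unfold U
    push_cast
    have h4 : (0 ≤ (t : ℤ) + 1 ∧ (t : ℤ) + 1 ≤ t + 1 ∧ (2 : ℤ) ∣ t + 1 - ((t : ℤ) + 1)) := by
      omega
    have h5 : (0 < (t : ℤ) + 1 ∧ (t : ℤ) + 1 ≤ t + 1 ∧ (2 : ℤ) ∣ t + 1 - ((t : ℤ) + 1)) := by
      omega
    rw [decide_eq_true h4, decide_eq_true h5]
    simp
  · have h1 : ¬ (k - 1 = t) := by omega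
    rw [decide_eq_false h1, g_wake]
    unfold U
    push_cast
    have h2 : (0 < k + 1 ∧ k + 1 ≤ t ∧ (2 : ℤ) ∣ t - (k + 1)) ↔
        (0 ≤ k ∧ k ≤ t + 1 ∧ (2 : ℤ) ∣ t + 1 - k) := by omega
    have h3 : (0 ≤ k - 1 ∧ k - 1 ≤ t ∧ (2 : ℤ) ∣ t - (k - 1)) ↔
        (0 < k ∧ k ≤ t + 1 ∧ (2 : ℤ) ∣ t + 1 - k) := by omega
    rw [decide_eq_decide.mpr h2, decide_eq_decide.mpr h3, decide_eq_false h]

lemma inputs_eq (c : Config) (x y : ℤ) :
    (fun j => c (nbr (x, y) j) (j + 2)) =
      ![c (x, y + 1) 2, c (x + 1, y) 3, c (x, y - 1) 0, c (x - 1, y) 1] := by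
  funext j
  fin_cases j <;> rfl

/-- The evolution of the finite staircase agrees with the infinite one away from the ends. -/
lemma evolution (m : ℕ) (t : ℕ) : ∀ x y : ℤ, (t : ℤ) ≤ x + y → x + y ≤ 2 * m - 2 - t →
    (step g)^[t] (c0 m) (x, y) = U t (x - y) := by
  induction t with
  | zero =>
    intro x y h1 h2
    funext i
    simp only [Function.iterate_zero, id_eq, c0]
    fin_cases i
    · simp [U]
    · simp only [U, Nat.cast_zero]
      simp only [Fin.mk_one, Matrix.cons_val_one, Matrix.cons_val_zero, true_or, and_true,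
        decide_eq_decide]
      push_cast at h1 h2
      omega
    · simp only [U, Nat.cast_zero]
      simp only [Fin.reduceFinMk, Matrix.cons_val, or_true, and_true, decide_eq_decide]
      push_cast at h1 h2
      omega
    · simp only [U, Nat.cast_zero]
      simp only [Fin.reduceFinMk, Matrix.cons_val, decide_eq_decide]
      push_cast at h1 h2
      constructor
      · rintro ⟨_, _, _, h | h⟩ <;> exact absurd h (by decide)
      · omega
  | succ t ih =>
    intro x y h1 h2
    push_cast at h1 h2
    rw [Function.iterate_succ_apply']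
    simp only [step]
    rw [inputs_eq, ih x (y + 1) (by omega) (by omega), ih (x + 1) y (by omega) (by omega),
      ih x (y - 1) (by omega) (by omega), ih (x - 1) y (by omega) (by omega)]
    rw [show x - (y + 1) = x - y - 1 by ring, show x + 1 - y = x - y + 1 by ring,
      show x - (y - 1) = x - y + 1 by ring, show x - 1 - y = x - y - 1 by ring]
    exact U_step t (x - y)

lemma c0_confined (m : ℕ) : Confined m (c0 m) := by
  intro z i h
  simp only [c0, decide_eq_true_eq] at h
  left
  simp only [InBox]
  omega

lemma population_c0 (m : ℕ) : population (c0 m) ≤ 2 * m := by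
  classical
  have hsub : particles (c0 m) ⊆
      (((Finset.range m ×ˢ ({1, 2} : Finset (Fin 4))).image
        (fun q : ℕ × Fin 4 => (((q.1 : ℤ), (q.1 : ℤ)), q.2)) : Finset ((ℤ × ℤ) × Fin 4)) :
          Set ((ℤ × ℤ) × Fin 4)) := by
    rintro ⟨⟨x, y⟩, i⟩ h
    simp only [particles, c0, Set.mem_ofPred_eq, decide_eq_true_eq] at h
    simp only [Finset.coe_image, Set.mem_image, Finset.mem_coe, Finset.mem_product,
      Finset.mem_range, Finset.mem_insert, Finset.mem_singleton, Prod.mk.injEq]
    refine ⟨(x.toNat, i), ⟨by omega, h.2.2.2⟩, ⟨?_, ?_⟩, rfl⟩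
    · simp only
      omega
    · simp only
      omega
  refine (Set.ncard_le_ncard hsub (Finset.finite_toSet _)).trans ?_
  rw [Set.ncard_coe_finset]
  refine Finset.card_image_le.trans ?_
  rw [Finset.card_product, Finset.card_range]
  simp
  omega

lemma population_large (n : ℕ) : n * n ≤ population ((step g)^[2 * n] (c0 (3 * n))) := by
  classical
  have hsub : (((Finset.range n ×ˢ Finset.range n).image
        (fun q : ℕ × ℕ => ((((n : ℤ) + q.1 + (q.2 + 1)), ((n : ℤ) + q.1 - (q.2 + 1))), (1 : Fin 4))) :
          Finset ((ℤ × ℤ) × Fin 4)) : Set ((ℤ × ℤ) × Fin 4)) ⊆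
      particles ((step g)^[2 * n] (c0 (3 * n))) := by
    rintro ⟨⟨x, y⟩, i⟩ h
    simp only [Finset.coe_image, Set.mem_image, Finset.mem_coe, Finset.mem_product,
      Finset.mem_range, Prod.mk.injEq] at h
    obtain ⟨⟨a, b⟩, ⟨ha, hb⟩, ⟨hx, hy⟩, hi⟩ := h
    simp only at ha hb hx hy
    simp only [particles, Set.mem_ofPred_eq]
    rw [evolution (3 * n) (2 * n) x y (by push_cast; omega) (by push_cast; omega), ← hi]
    simp only [U, Matrix.cons_val_one, Matrix.cons_val_zero, decide_eq_true_eq]
    push_cast
    omega
  have hfin : (particles ((step g)^[2 * n] (c0 (3 * n)))).Finite :=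
    particles_finite (confined_iterate (c0_confined _) _)
  refine le_trans ?_ (Set.ncard_le_ncard hsub hfin)
  rw [Set.ncard_coe_finset, Finset.card_image_of_injOn, Finset.card_product, Finset.card_range]
  rintro ⟨a, b⟩ _ ⟨a', b'⟩ _ h
  simp only [Prod.mk.injEq, and_true] at h
  obtain ⟨h1, h2⟩ := h
  simp only [Prod.mk.injEq]
  omega

lemma iterate_empty (n : ℕ) : (step g)^[n] (fun _ _ => false) = fun _ _ => false := by
  induction n with
  | zero => rfl
  | succ n ih =>
    rw [Function.iterate_succ_apply', ih]
    funext z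
    exact g_espca.zero

lemma population_pos {m : ℕ} {c : Config} (h : Confined m c) (hc : (particles c).Nonempty)
    (n : ℕ) : 1 ≤ population ((step g)^[n] c) := by
  have hfin : (particles ((step g)^[n] c)).Finite := particles_finite (confined_iterate h n)
  rw [Nat.one_le_iff_ne_zero]
  intro h0
  rw [population, Set.ncard_eq_zero hfin] at h0
  have h1 : (step g)^[n] c = fun _ _ => false := by
    funext z i
    by_contra h2
    have h3 : (z, i) ∈ particles ((step g)^[n] c) := by
      simpa [particles] using h2
    rw [h0] at h3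
    exact h3
  have h3 : c = fun _ _ => false := step_inj.iterate n (h1.trans (iterate_empty n).symm)
  obtain ⟨p, hp⟩ := hc
  rw [h3] at hp
  simp [particles] at hp

/-- There is a reversible ESPCA in which the ratio `p_max / p_min` of periodic patterns is
unbounded: for every real `M` it has a periodic pattern of ratio larger than `M`. -/
theorem result : ∃ f : State → State, IsESPCA f ∧ Function.Bijective f ∧
    ∀ M : ℝ, ∃ (c : Config) (p : ℕ), IsPattern c ∧ 1 ≤ p ∧ (step f)^[p] c = c ∧
      M < (pMax f c p : ℝ) / (pMin f c p : ℝ) := by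
  refine ⟨g, g_espca, g_bij, fun M => ?_⟩
  obtain ⟨n, hn⟩ := exists_nat_gt (max (6 * M) 1)
  have hn1 : (1 : ℝ) < n := lt_of_le_of_lt (le_max_right _ _) hn
  have hnM : 6 * M < n := lt_of_le_of_lt (le_max_left _ _) hn
  have hn1' : 1 < n := by exact_mod_cast hn1
  have hconf := c0_confined (3 * n)
  obtain ⟨p, hp, hper⟩ := exists_period hconf
  have hne : (particles (c0 (3 * n))).Nonempty := by
    refine ⟨((0, 0), 1), ?_⟩
    simp only [particles, c0, Set.mem_ofPred_eq, decide_eq_true_eq]
    refine ⟨trivial, le_rfl, by omega, Or.inl trivial⟩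
  refine ⟨c0 (3 * n), p, ⟨particles_finite hconf, hne⟩, hp, hper, ?_⟩
  have hfinset : {k | ∃ i < p, k = population ((step g)^[i] (c0 (3 * n)))}.Finite := by
    apply ((Finset.range p).image
      (fun i => population ((step g)^[i] (c0 (3 * n))))).finite_toSet.subset
    rintro k ⟨i, hi, rfl⟩
    simp only [Finset.coe_image, Set.mem_image, Finset.mem_coe, Finset.mem_range]
    exact ⟨i, hi, rfl⟩
  have hmax : n * n ≤ pMax g (c0 (3 * n)) p := by
    refine (population_large n).trans ?_
    unfold pMax
    apply le_csSup hfinset.bddAbove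
    refine ⟨2 * n % p, Nat.mod_lt _ (by omega), ?_⟩
    have : (step g)^[2 * n] (c0 (3 * n)) = (step g)^[2 * n % p] (c0 (3 * n)) := by
      conv_lhs => rw [← Nat.mod_add_div (2 * n) p]
      rw [Function.iterate_add_apply]
      congr 1
      rw [Function.iterate_mul]
      exact Function.iterate_fixed hper _
    rw [this]
  have hmin : pMin g (c0 (3 * n)) p ≤ 6 * n := by
    unfold pMin
    have h0 : population ((step g)^[0] (c0 (3 * n))) ∈
        {k | ∃ i < p, k = population ((step g)^[i] (c0 (3 * n)))} := ⟨0, by omega, rfl⟩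
    refine (Nat.sInf_le h0).trans ?_
    have := population_c0 (3 * n)
    simp only [Function.iterate_zero, id_eq]
    omega
  have hmin1 : 1 ≤ pMin g (c0 (3 * n)) p := by
    unfold pMin
    have hs : {k | ∃ i < p, k = population ((step g)^[i] (c0 (3 * n)))}.Nonempty :=
      ⟨_, 0, by omega, rfl⟩
    obtain ⟨i, hi, he⟩ := Nat.sInf_mem hs
    rw [he]
    exact population_pos hconf hne i
  have h1 : ((n : ℝ) * n) ≤ pMax g (c0 (3 * n)) p := by exact_mod_cast hmax
  have h2 : (pMin g (c0 (3 * n)) p : ℝ) ≤ 6 * n := by exact_mod_cast hmin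
  have h3 : (1 : ℝ) ≤ pMin g (c0 (3 * n)) p := by exact_mod_cast hmin1
  rw [lt_div_iff₀ (by linarith)]
  rcases le_or_gt M 0 with hM | hM
  · have : M * (pMin g (c0 (3 * n)) p : ℝ) ≤ 0 :=
      mul_nonpos_of_nonpos_of_nonneg hM (by linarith)
    nlinarith
  · calc M * (pMin g (c0 (3 * n)) p : ℝ) ≤ M * (6 * n) := mul_le_mul_of_nonneg_left h2 hM.le
      _ = (6 * M) * n := by ring
      _ < n * n := by
        apply mul_lt_mul_of_pos_right hnM
        linarith
      _ ≤ _ := h1

end Pool.Agent.Results.MP_b5d889_lc.Unbounded
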